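import Pool.Agent.H41.AV.Defs

set_option autoImplicit false

namespace Pool.Agent.H79.AV

open Equiv Finset Pool.Agent.H41.AV
open scoped Nat

theorem swap3 {G : Type} [Fintype G] [DecidableEq G] (f : Perm G → Perm G → G → ℝ) :
    ∑ ρ : Perm G, ∑ τ : Perm G, ∑ x, f ρ τ x = ∑ x, ∑ ρ : Perm G, ∑ τ : Perm G, f ρ τ x := by
  calc ∑ ρ : Perm G, ∑ τ : Perm G, ∑ x, f ρ τ x = ∑ ρ : Perm G, ∑ x, ∑ τ : Perm G, f ρ τ x :=
        sum_congr rfl fun ρ _ => sum_comm
    _ = _ := sum_comm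

theorem min_ge (c B : ℕ) (hB : 1 ≤ B) :
    (c : ℝ) - ((c * (c - 1) : ℕ) : ℝ) / B ≤ ((min c B : ℕ) : ℝ) := by
  have hB' : (0 : ℝ) < B := by exact_mod_cast hB
  rcases le_or_gt c B with h | h
  · rw [min_eq_left h]
    have : (0 : ℝ) ≤ ((c * (c - 1) : ℕ) : ℝ) / B := by positivity
    linarith
  · rw [min_eq_right h.le]
    have hc1 : 1 ≤ c := by omega
    have h2 : (B : ℝ) + 1 ≤ c := by exact_mod_cast h
    rw [Nat.cast_mul, Nat.cast_sub hc1, Nat.cast_one]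
    have h3 : (c : ℝ) - B ≤ c * (c - 1) / B := by
      rw [le_div_iff₀ hB']
      nlinarith
    linarith

theorem mean (hm : S_MOM) : S_MEAN := by
  intro G _ _ _ A B hn hB hcell
  obtain ⟨F, hF⟩ : ∃ F : ℝ, F = ((Fintype.card G)! : ℝ) ^ 2 := ⟨_, rfl⟩
  have hF0 : 0 ≤ F := by rw [hF]; positivity
  obtain ⟨n, hn'⟩ : ∃ n : ℝ, n = (Fintype.card G : ℝ) := ⟨_, rfl⟩
  have hn2 : (2 : ℝ) ≤ n := by rw [hn']; exact_mod_cast hn
  have hB' : (1 : ℝ) ≤ B := by exact_mod_cast hB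
  have hp0 : ∀ x, 0 ≤ pr A x := fun x => by unfold pr; positivity
  have hp1 : ∀ x, pr A x ≤ 1 := by
    intro x
    unfold pr
    rw [← hn', div_le_one (by linarith), hn']
    exact_mod_cast hcell x
  have hpc : ∀ x, ((cells A x).card : ℝ) = pr A x * n := by
    intro x
    unfold pr
    rw [← hn', div_mul_cancel₀]
    linarith
  have hnn : ((Fintype.card G * (Fintype.card G - 1) : ℕ) : ℝ) = n * (n - 1) := by
    rw [Nat.cast_mul, Nat.cast_sub (by omega), Nat.cast_one, ← hn']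
  have hnpos : 0 < n * (n - 1) := by nlinarith
  have m1 : ∀ x y, ∑ ρ : Perm G, ∑ τ : Perm G, (cnt A ρ τ x y : ℝ) = pr A x * F := by
    intro x y
    have h := (hm G A x).1 y
    have h' : n * ∑ ρ : Perm G, ∑ τ : Perm G, (cnt A ρ τ x y : ℝ) =
        ((cells A x).card : ℝ) * F := by
      rw [hn', hF]
      exact_mod_cast h
    rw [hpc] at h'
    have h0 : n ≠ 0 := by linarith
    apply mul_left_cancel₀ h0
    linarith
  have m2 : ∀ x y y', y ≠ y' → ∑ ρ : Perm G, ∑ τ : Perm G,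
      (cnt A ρ τ x y : ℝ) * (cnt A ρ τ x y' : ℝ) ≤ (pr A x ^ 2 + 1 / (n - 1)) * F := by
    intro x y y' hyy
    have h := (hm G A x).2.1 y y' hyy
    have h' : (n * (n - 1)) * ∑ ρ : Perm G, ∑ τ : Perm G,
        (cnt A ρ τ x y : ℝ) * (cnt A ρ τ x y' : ℝ) ≤ ((cells A x).card : ℝ) ^ 2 * F := by
      rw [← hnn, hF]
      exact_mod_cast h
    rw [hpc] at h'
    refine le_of_mul_le_mul_left (h'.trans ?_) hnpos
    have hn1 : n - 1 ≠ 0 := by linarith
    have e : n * (n - 1) * ((pr A x ^ 2 + 1 / (n - 1)) * F) =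
        (n * (n - 1) * pr A x ^ 2 + n) * F := by
      field_simp
    rw [e]
    apply mul_le_mul_of_nonneg_right _ hF0
    have h1 : pr A x ^ 2 ≤ 1 := by nlinarith [hp0 x, hp1 x]
    nlinarith
  have m3 : ∀ x y, ∑ ρ : Perm G, ∑ τ : Perm G,
      ((cnt A ρ τ x y * (cnt A ρ τ x y - 1) : ℕ) : ℝ) ≤ 2 * F := by
    intro x y
    have h := (hm G A x).2.2 y
    have h' : (n * (n - 1)) * ∑ ρ : Perm G, ∑ τ : Perm G,
        ((cnt A ρ τ x y * (cnt A ρ τ x y - 1) : ℕ) : ℝ) ≤ ((cells A x).card : ℝ) ^ 2 * F := by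
      rw [← hnn, hF]
      exact_mod_cast h
    rw [hpc] at h'
    refine le_of_mul_le_mul_left (h'.trans ?_) hnpos
    have e : n * (n - 1) * (2 * F) = (2 * n * (n - 1)) * F := by ring
    rw [e]
    apply mul_le_mul_of_nonneg_right _ hF0
    have h1 : pr A x ^ 2 ≤ 1 := by nlinarith [hp0 x, hp1 x]
    have h2 : (pr A x * n) ^ 2 = pr A x ^ 2 * n ^ 2 := by ring
    rw [h2]
    have h3 : pr A x ^ 2 * n ^ 2 ≤ 1 * n ^ 2 := mul_le_mul_of_nonneg_right h1 (sq_nonneg _)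
    nlinarith
  have hcard : ∑ _x : G, (1 : ℝ) = n := by
    rw [sum_const, card_univ, nsmul_eq_mul, mul_one, hn']
  rw [← hF]
  refine ⟨?_, ?_, ?_⟩
  · intro y
    calc ∑ ρ : Perm G, ∑ τ : Perm G, DD A ρ τ y
        ≤ ∑ ρ : Perm G, ∑ τ : Perm G, ∑ x, (cnt A ρ τ x y : ℝ) := by
          refine sum_le_sum fun ρ _ => sum_le_sum fun τ _ => sum_le_sum fun x _ => ?_
          unfold tr
          exact Nat.cast_le.mpr (min_le_left _ _)
      _ = ∑ x, ∑ ρ : Perm G, ∑ τ : Perm G, (cnt A ρ τ x y : ℝ) :=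
          swap3 fun ρ τ x => (cnt A ρ τ x y : ℝ)
      _ = ∑ x, pr A x * F := sum_congr rfl fun x _ => m1 x y
      _ = (∑ x, pr A x) * F := by rw [sum_mul]
  · intro y
    have h1 : ∑ ρ : Perm G, ∑ τ : Perm G, GG B A ρ τ y =
        ∑ x, pr A x * ∑ ρ : Perm G, ∑ τ : Perm G, tr B A ρ τ x y := by
      rw [show ∑ ρ : Perm G, ∑ τ : Perm G, GG B A ρ τ y =
        ∑ ρ : Perm G, ∑ τ : Perm G, ∑ x, pr A x * tr B A ρ τ x y from rfl,
        swap3 fun ρ τ x => pr A x * tr B A ρ τ x y]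
      refine sum_congr rfl fun x _ => ?_
      rw [mul_sum]
      exact sum_congr rfl fun ρ _ => (mul_sum _ _ _).symm
    have h2 : ∀ x, pr A x * F - 2 / B * F ≤ ∑ ρ : Perm G, ∑ τ : Perm G, tr B A ρ τ x y := by
      intro x
      have h3 : ∑ ρ : Perm G, ∑ τ : Perm G, ((cnt A ρ τ x y : ℝ) -
          ((cnt A ρ τ x y * (cnt A ρ τ x y - 1) : ℕ) : ℝ) / B) ≤
          ∑ ρ : Perm G, ∑ τ : Perm G, tr B A ρ τ x y :=
        sum_le_sum fun ρ _ => sum_le_sum fun τ _ => min_ge _ _ hB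
      refine le_trans ?_ h3
      simp only [sum_sub_distrib, ← sum_div]
      rw [m1 x y]
      have h4 := m3 x y
      have h5 : (∑ ρ : Perm G, ∑ τ : Perm G,
          ((cnt A ρ τ x y * (cnt A ρ τ x y - 1) : ℕ) : ℝ)) / B ≤ 2 * F / B :=
        div_le_div_of_nonneg_right h4 (by linarith)
      have h6 : 2 * F / B = 2 / B * F := by ring
      linarith
    rw [h1]
    calc (P2 A - 2 * (Fintype.card G : ℝ) / B) * F
        = ∑ x, (pr A x ^ 2 - 2 / B) * F := by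
          rw [← sum_mul, sum_sub_distrib, sum_const, card_univ, nsmul_eq_mul]
          unfold P2
          ring
      _ ≤ ∑ x, pr A x * ∑ ρ : Perm G, ∑ τ : Perm G, tr B A ρ τ x y := by
          refine sum_le_sum fun x _ => ?_
          have h7 := mul_le_mul_of_nonneg_left (h2 x) (hp0 x)
          refine le_trans ?_ h7
          have h8 : 0 ≤ 2 / (B : ℝ) * F := by positivity
          have h9 : pr A x * (2 / B * F) ≤ 1 * (2 / B * F) :=
            mul_le_mul_of_nonneg_right (hp1 x) h8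
          nlinarith
  · intro y y' hyy
    calc ∑ ρ : Perm G, ∑ τ : Perm G, HH B A ρ τ y y'
        ≤ ∑ ρ : Perm G, ∑ τ : Perm G, ∑ x, (cnt A ρ τ x y : ℝ) * (cnt A ρ τ x y' : ℝ) := by
          refine sum_le_sum fun ρ _ => sum_le_sum fun τ _ => sum_le_sum fun x _ => ?_
          unfold tr
          exact mul_le_mul (Nat.cast_le.mpr (min_le_left _ _)) (Nat.cast_le.mpr (min_le_left _ _))
            (Nat.cast_nonneg _) (Nat.cast_nonneg _)
      _ = ∑ x, ∑ ρ : Perm G, ∑ τ : Perm G, (cnt A ρ τ x y : ℝ) * (cnt A ρ τ x y' : ℝ) :=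
          swap3 fun ρ τ x => (cnt A ρ τ x y : ℝ) * (cnt A ρ τ x y' : ℝ)
      _ ≤ ∑ x, (pr A x ^ 2 + 1 / (n - 1)) * F := sum_le_sum fun x _ => m2 x y y' hyy
      _ = (P2 A + n * (1 / (n - 1))) * F := by
          rw [← sum_mul, sum_add_distrib, sum_const, card_univ, nsmul_eq_mul, hn']
          rfl
      _ ≤ (P2 A + 2) * F := by
          apply mul_le_mul_of_nonneg_right _ hF0
          have h1 : n * (1 / (n - 1)) ≤ 2 := by
            rw [mul_one_div, div_le_iff₀ (by linarith)]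
            linarith
          linarith

end Pool.Agent.H79.AV
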